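import Pool.Agent.MP_74e98a_nt.H98.Final

/-! A power lower bound for the oscillation of the cubic moment of Hardy's function. -/

namespace Pool.Agent.Results.MP_74e98a_nt.OmegaPower

open Pool.Agent.MP_6f2ed2_nt.H1 Pool.Agent.MP_74e98a_nt

theorem result : ∃ T₀ : ℝ, ∀ T : ℝ, T₀ ≤ T → ∃ t ∈ Set.Icc T (64 * T),
    T ^ (1 / 64 : ℝ) ≤ |∫ x in (0 : ℝ)..t, hardyZ x ^ 3| :=
  H98.omega_power

end Pool.Agent.Results.MP_74e98a_nt.OmegaPower
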