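import Pool.Agent.MP_74e98a_nt.H2.Win
import Pool.Agent.MP_74e98a_nt.H15.Afe
import Pool.Agent.MP_74e98a_nt.H25.B
import Pool.Agent.MP_74e98a_nt.H44.Cube
import Pool.Agent.MP_74e98a_nt.H47.Fub
import Pool.Agent.MP_74e98a_nt.H50.X
import Pool.Agent.MP_74e98a_nt.H75.RowM
import Pool.Agent.MP_74e98a_nt.H75.Triple
import Pool.Agent.MP_74e98a_nt.H78.Kern
import Pool.Agent.MP_74e98a_nt.H83.Main
import Pool.Agent.MP_74e98a_nt.H87.Final
import Pool.Agent.MP_74e98a_nt.H93.Gam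

/-! A power saving for the cubic moment of Hardy's function. -/

namespace Pool.Agent.Results.MP_74e98a_nt.PowerSaving

open Pool.Agent.MP_6f2ed2_nt.H1 Pool.Agent.MP_74e98a_nt

theorem result : ∃ c : ℝ, c < 1 ∧ ∃ C : ℝ, ∀ T : ℝ, 1 ≤ T →
    |∫ t in (0 : ℝ)..T, hardyZ t ^ 3| ≤ C * T ^ c := by
  obtain ⟨φ, G, h⟩ := H78.kern
  exact H87.final (H2.win h.step (H15.afe H50.xi_facts H50.contour H93.gam h) H93.phase
    H75.pbound H44.cube (H47.fub (H75.triple_of (H25.core H83.decorr)))) H75.fourth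

end Pool.Agent.Results.MP_74e98a_nt.PowerSaving
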